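import Pool.Agent.H53.TOW.SPLA

/-!
# TOW, row SPLI, part B: a root modulo `P` implies that `P` splits completely
-/

set_option autoImplicit false

namespace Pool.TOW

open Polynomial Pool.HYP Pool.AVS IsLocalRing

namespace Spl53

theorem isUnit_iff_inv {L : Type} [Field L] (O : ValuationSubring L) (z : O) :
    IsUnit z ↔ ((z : L))⁻¹ ∈ O ∧ (z : L) ≠ 0 := by
  constructor
  · rintro ⟨u, rfl⟩
    have h1 : ((u : O) : L) * ((u⁻¹ : Oˣ) : O) = 1 :=
      congrArg (fun z : O => (z : L)) u.mul_inv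
    refine ⟨?_, left_ne_zero_of_mul_eq_one h1⟩
    rw [inv_eq_of_mul_eq_one_right h1]
    exact ((u⁻¹ : Oˣ) : O).2
  · rintro ⟨h1, h2⟩
    exact IsUnit.of_mul_eq_one ⟨_, h1⟩ (Subtype.ext (mul_inv_cancel₀ h2))

/-- Powers of a non-unit are small. -/
theorem arch {L : Type} [Field L] (O : ValuationSubring L) (hO : IsDiscreteValuationRing O)
    (p : O) (hp : p ∈ maximalIdeal O) (B : L) (hB : B ≠ 0) : ∃ m : ℕ, ((p ^ m : O) : L) / B ∈ O := by
  rcases O.mem_or_inv_mem B with h | h
  · obtain ⟨ϖ, hϖ⟩ := IsDiscreteValuationRing.exists_irreducible O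
    have hne : (⟨B, h⟩ : O) ≠ 0 := fun h0 => hB (congrArg (fun z : O => (z : L)) h0)
    obtain ⟨n, hn⟩ := IsDiscreteValuationRing.associated_pow_irreducible hne hϖ
    have h1 : ϖ ∣ p := by
      rw [hϖ.maximalIdeal_eq, Ideal.mem_span_singleton] at hp
      exact hp
    obtain ⟨w, hw⟩ := hn.dvd.trans (pow_dvd_pow_of_dvd h1 n)
    refine ⟨n, ?_⟩
    have h2 : ((p ^ n : O) : L) / B = (w : L) := by
      rw [hw]
      change (B * (w : L)) / B = w
      field_simp
    rw [h2]
    exact w.2
  · refine ⟨0, ?_⟩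
    rw [pow_zero]
    change (1 : L) / B ∈ O
    rw [one_div]
    exact h

theorem spl_of {F : Type} [Field F] [Finite F] {E : Type} [Field E] [Algebra (RatFunc F) E]
    [FiniteDimensional (RatFunc F) E] {h : F[X][X]} {δ : F[X]} {u v : F[X][X]} (hm : h.Monic)
    (hδ : u * h + v * derivative h = C δ) (hi : Irreducible (fK h))
    (hd : (fK h).natDegree = Module.finrank (RatFunc F) E) (hs : (fE E h).Splits)
    {P : F[X]} (hPm : P.Monic) (hPi : Irreducible P) (hPδ : ¬ P ∣ δ) {a : F[X]}
    (hPa : P ∣ h.eval a) : Spl E P := by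
  intro L _ O ι hC hP hP' z b hb
  have hmem := memp F P hPm hPi L O (ι.comp (algebraMap (RatFunc F) E)) hP hP'
  have hpoly : ∀ p : F[X], ι (pE E p) ∈ O := by
    intro p
    refine (hmem (rf p)).2 ?_
    change ¬ P ∣ (rf p).denom
    rw [rf, RatFunc.denom_algebraMap]
    exact fun h => hPi.not_isUnit (isUnit_of_dvd_one h)
  set φ : F[X] →+* O :=
    ((ι.comp (algebraMap (RatFunc F) E)).comp (algebraMap F[X] (RatFunc F))).codRestrict
      O.toSubring (fun p => hpoly p) with hφ
  have hφv : ∀ p : F[X], ((φ p : O) : L) = ι (pE E p) := fun p => rfl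
  have hinj : ∀ p : F[X], p ≠ 0 → ι (pE E p) ≠ 0 := by
    intro p hp
    rw [_root_.map_ne_zero, _root_.map_ne_zero]
    exact RatFunc.algebraMap_ne_zero hp
  have hπ : φ P ∈ maximalIdeal O := by
    rw [mem_maximalIdeal, mem_nonunits_iff, isUnit_iff_inv]
    exact fun h => hP' h.1
  have hcop : ∀ d : F[X], ¬ P ∣ d → IsUnit (φ d) := by
    intro d hd
    obtain ⟨r, s, hrs⟩ := (hPi.coprime_iff_not_dvd.2 hd)
    have h1 : φ r * φ P + φ s * φ d = 1 := by
      rw [← map_mul, ← map_mul, ← map_add, hrs, map_one]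
    by_contra h3
    have h4 : φ r * φ P + φ s * φ d ∈ maximalIdeal O :=
      Ideal.add_mem _ (Ideal.mul_mem_left _ _ hπ)
        (Ideal.mul_mem_left _ _ ((mem_maximalIdeal _).2 h3))
    rw [h1] at h4
    exact (mem_maximalIdeal _).1 h4 isUnit_one
  have hev : ∀ (q : F[X][X]) (t : O) (θ : E), (t : L) = ι θ →
      (((q.map φ).eval t : O) : L) = ι ((fE E q).eval θ) := by
    intro q t θ ht
    have e1 : (((q.map φ).eval t : O) : L) = Polynomial.eval₂ (O.subtype.comp φ) (t : L) q := by
      rw [Polynomial.eval_map]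
      exact Polynomial.hom_eval₂ q φ O.subtype t
    have e2 : ι ((fE E q).eval θ) = Polynomial.eval₂ (ι.comp ((algebraMap (RatFunc F) E).comp
        (algebraMap F[X] (RatFunc F)))) (ι θ) q := by
      rw [fE, fK, Polynomial.map_map, Polynomial.eval_map]
      exact Polynomial.hom_eval₂ q _ ι θ
    rw [e1, e2, ht]
    rfl
  have heva : ∀ (q : F[X][X]) (α : F[X]), (q.map φ).eval (φ α) = φ (q.eval α) := by
    intro q α
    rw [Polynomial.eval_map, Polynomial.eval₂_at_apply]
  -- roots are integral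
  have hint : ∀ θ : E, (fE E h).eval θ = 0 → ι θ ∈ O := by
    intro θ hθ
    have h1 : IsIntegral O (ι θ) := by
      refine ⟨h.map φ, hm.map φ, ?_⟩
      rw [Polynomial.eval₂_map]
      have e2 : ι ((fE E h).eval θ) = Polynomial.eval₂ (ι.comp ((algebraMap (RatFunc F) E).comp
          (algebraMap F[X] (RatFunc F)))) (ι θ) h := by
        rw [fE, fK, Polynomial.map_map, Polynomial.eval_map]
        exact Polynomial.hom_eval₂ h _ ι θ
      rw [hθ, map_zero] at e2
      rw [e2]
      rfl
    obtain ⟨y, hy⟩ := (IsIntegrallyClosed.isIntegral_iff (R := O) (K := L)).1 h1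
    rw [← hy]
    exact y.2
  -- a root close to `a`
  obtain ⟨θ, hθ, hnu⟩ : ∃ θ : E, (fE E h).eval θ = 0 ∧
      ¬ (ι (pE E a) - ι θ ≠ 0 ∧ ι (pE E a) - ι θ ∈ O ∧ (ι (pE E a) - ι θ)⁻¹ ∈ O) := by
    by_contra hcon
    push Not at hcon
    have hm' : (fE E h).Monic := (hm.map _).map _
    have h1 : (fE E h).eval (pE E a) =
        ((fE E h).roots.map (fun x => pE E a - x)).prod := by
      conv_lhs => rw [hs.eq_prod_roots_of_monic hm']
      rw [Polynomial.eval_multiset_prod, Multiset.map_map]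
      congr 1
      apply Multiset.map_congr rfl
      intro x _
      simp
    have h2 : (fE E h).eval (pE E a) = pE E (h.eval a) := by
      rw [fE, fK, Polynomial.map_map, Polynomial.eval_map]
      exact Polynomial.eval₂_at_apply
        ((algebraMap (RatFunc F) E).comp (algebraMap F[X] (RatFunc F))) a
    have h3 : ι (pE E (h.eval a)) ≠ 0 ∧ (ι (pE E (h.eval a)))⁻¹ ∈ O := by
      rw [← h2, h1, map_multiset_prod, Multiset.map_map]
      refine Multiset.prod_induction (fun x : L => x ≠ 0 ∧ x⁻¹ ∈ O) _ ?_ ?_ ?_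
      · intro x y hx hy
        refine ⟨mul_ne_zero hx.1 hy.1, ?_⟩
        rw [mul_inv]
        exact mul_mem hx.2 hy.2
      · exact ⟨one_ne_zero, by rw [inv_one]; exact O.one_mem⟩
      · intro x hx
        obtain ⟨r, hr, rfl⟩ := Multiset.mem_map.1 hx
        have hr' : (fE E h).eval r = 0 := (Polynomial.mem_roots'.1 hr).2
        have h4 := hcon r hr'
        simp only [Function.comp_apply, map_sub]
        exact ⟨h4.1, h4.2.2⟩
    obtain ⟨k, hk⟩ := hPa
    rw [hk] at h3
    apply hP'
    have h5 : (ι (pE E P))⁻¹ = ι (pE E k) * (ι (pE E (P * k)))⁻¹ := by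
      have h6 : ι (pE E (P * k)) = ι (pE E P) * ι (pE E k) := by
        rw [pE, map_mul, map_mul, map_mul]
      rw [h6] at h3 ⊢
      have h7 := left_ne_zero_of_mul h3.1
      have h8 := right_ne_zero_of_mul h3.1
      field_simp
    rw [h5]
    exact mul_mem (hpoly k) h3.2
  set t : O := ⟨ι θ, hint θ hθ⟩ with ht
  have ht0 : (h.map φ).eval t = 0 := by
    apply Subtype.ext
    rw [hev h t θ rfl, hθ, map_zero]
    rfl
  have hy : φ a - t ∈ maximalIdeal O := by
    rw [mem_maximalIdeal, mem_nonunits_iff, isUnit_iff_inv]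
    intro h1
    exact hnu ⟨h1.2, (φ a - t).2, h1.1⟩
  -- the derivative
  have hdu : IsUnit (((derivative h).map φ).eval t) := by
    have h1 := congrArg (fun q : F[X][X] => (q.map φ).eval t) hδ
    simp only [Polynomial.map_add, Polynomial.map_mul, Polynomial.eval_add, Polynomial.eval_mul,
      Polynomial.map_C, Polynomial.eval_C] at h1
    rw [ht0, mul_zero, zero_add] at h1
    exact isUnit_of_mul_isUnit_right (h1 ▸ hcop δ hPδ)
  have hda : ¬ P ∣ (derivative h).eval a := by
    intro h0
    apply hPδ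
    have h1 := congrArg (fun q : F[X][X] => q.eval a) hδ
    simp only [Polynomial.eval_add, Polynomial.eval_mul, Polynomial.eval_C] at h1
    rw [← h1]
    exact dvd_add (Dvd.dvd.mul_left hPa _) (Dvd.dvd.mul_left h0 _)
  obtain ⟨r, s, hrs⟩ := (hPi.coprime_iff_not_dvd.2 hda)
  have hnew := newton P h a s hPa ⟨r, by linear_combination -hrs⟩
  -- approximation of the root
  have happ : ∀ m : ℕ, ∃ α : F[X], φ P ^ (m + 1) ∣ φ α - t := by
    intro m
    obtain ⟨α, hα1, hα2⟩ := hnew m
    refine ⟨α, ?_⟩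
    obtain ⟨k, hk⟩ := Polynomial.binomExpansion (h.map φ) t (φ α - t)
    rw [add_sub_cancel, ht0, zero_add, heva, Polynomial.derivative_map] at hk
    have hdm : φ α - t ∈ maximalIdeal O := by
      obtain ⟨w, hw⟩ := hα1
      have h1 : φ α - t = φ P * φ w + (φ a - t) := by
        rw [← map_mul, ← hw, map_sub]
        ring
      rw [h1]
      exact Ideal.add_mem _ (Ideal.mul_mem_right _ _ hπ) hy
    have h2 : φ (h.eval α) =
        (φ α - t) * (((derivative h).map φ).eval t + k * (φ α - t)) := by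
      rw [hk]
      ring
    have h3 : IsUnit (((derivative h).map φ).eval t + k * (φ α - t)) := by
      by_contra h4
      have h5 : ((derivative h).map φ).eval t ∈ maximalIdeal O := by
        have h6 : ((derivative h).map φ).eval t =
            (((derivative h).map φ).eval t + k * (φ α - t)) - k * (φ α - t) := by ring
        rw [h6]
        exact Ideal.sub_mem _ ((mem_maximalIdeal _).2 h4) (Ideal.mul_mem_left _ _ hdm)
      exact (mem_maximalIdeal _).1 h5 hdu
    have h7 : φ P ^ (m + 1) ∣ φ (h.eval α) := by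
      rw [← map_pow]
      exact map_dvd φ hα2
    rw [h2] at h7
    exact (IsUnit.dvd_mul_right h3).1 h7
  -- the density
  obtain ⟨e, he⟩ := hC.dense z b hb
  obtain ⟨g, hg⟩ := range_root hm hi hd hθ e
  obtain ⟨c, hc0, q, hq⟩ := clr g
  obtain ⟨m, hmB⟩ := arch O hC.dvr (φ P) hπ (ι (pE E c) * b) (mul_ne_zero (hinj c hc0) hb)
  obtain ⟨α, hα⟩ := happ m
  refine ⟨g.eval (rf α), ?_⟩
  have h1 : (z - ι (algebraMap (RatFunc F) E (g.eval (rf α)))) / b =
      (z - ι e) / b + (ι e - ι (algebraMap (RatFunc F) E (g.eval (rf α)))) / b := by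
    rw [← add_div]
    congr 1
    ring
  rw [h1]
  refine add_mem he ?_
  have hqθ : (fE E q).eval θ = pE E c * e := by
    rw [fE, hq, Polynomial.map_mul, Polynomial.map_C, Polynomial.eval_mul, Polynomial.eval_C, hg]
  have hqα : pE E (q.eval α) = pE E c * algebraMap (RatFunc F) E (g.eval (rf α)) := by
    have h2 : rf (q.eval α) = rf c * g.eval (rf α) := by
      have h3 : rf (q.eval α) = (fK q).eval (rf α) := by
        rw [fK, Polynomial.eval_map]
        exact (Polynomial.eval₂_at_apply (algebraMap F[X] (RatFunc F)) α).symm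
      rw [h3, hq, Polynomial.eval_mul, Polynomial.eval_C]
    rw [pE, pE, ← map_mul]
    exact congrArg _ h2
  obtain ⟨w, hw⟩ := Polynomial.sub_dvd_eval_sub (φ α) t (q.map φ)
  obtain ⟨w', hw'⟩ := hα
  have h4 : ι (pE E c) * (ι e - ι (algebraMap (RatFunc F) E (g.eval (rf α)))) =
      -(((φ P ^ m : O) : L) * ((φ P * w' * w : O) : L)) := by
    have h5 : (((q.map φ).eval (φ α) - (q.map φ).eval t : O) : L) =
        (((φ α - t) * w : O) : L) := congrArg _ hw
    have h6 : (((q.map φ).eval (φ α) - (q.map φ).eval t : O) : L) =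
        (((q.map φ).eval (φ α) : O) : L) - (((q.map φ).eval t : O) : L) := rfl
    rw [h6, hev q t θ rfl, hqθ, heva, hφv, hqα, hw'] at h5
    rw [map_mul, map_mul] at h5
    have h7 : (((φ P ^ (m + 1) * w') * w : O) : L) =
        ((φ P ^ m : O) : L) * ((φ P * w' * w : O) : L) := by
      change _ = (((φ P ^ m) * (φ P * w' * w) : O) : L)
      congr 1
      ring
    rw [h7] at h5
    linear_combination -h5
  have h8 : (ι e - ι (algebraMap (RatFunc F) E (g.eval (rf α)))) / b =
      -((((φ P ^ m : O) : L) / (ι (pE E c) * b)) * ((φ P * w' * w : O) : L)) := by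
    have hc1 := hinj c hc0
    field_simp
    linear_combination h4
  rw [h8]
  exact neg_mem (mul_mem hmB (φ P * w' * w).2)

end Spl53

end Pool.TOW
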