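import Pool.Agent.H49.TOW.LOCC

/-!
# TOW, row SPLI, part A: a primitive element and Newton approximation
-/

set_option autoImplicit false

namespace Pool.TOW

open Polynomial Pool.HYP Pool.AVS

namespace Spl53

/-- Clearing denominators. -/
theorem clr {F : Type} [Field F] (g : (RatFunc F)[X]) : ∃ c : F[X], c ≠ 0 ∧ ∃ q : F[X][X],
    fK q = C (rf c) * g := by
  obtain ⟨b, hb1, hb2⟩ := IsLocalization.integerNormalization_spec (nonZeroDivisors F[X]) g
  refine ⟨b, nonZeroDivisors.ne_zero hb1,
    IsLocalization.integerNormalization (nonZeroDivisors F[X]) g, ?_⟩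
  rw [fK, hb2, ← IsScalarTower.algebraMap_smul (RatFunc F) b g, Polynomial.smul_eq_C_mul]

theorem fK_inj {F : Type} [Field F] : Function.Injective (fK (F := F)) :=
  Polynomial.map_injective _ (IsFractionRing.injective F[X] (RatFunc F))

open IntermediateField in
theorem prim (F : Type) [Field F] (E : Type) [Field E] [Algebra (RatFunc F) E]
    [FiniteDimensional (RatFunc F) E] [IsGalois (RatFunc F) E] :
    ∃ (h : F[X][X]) (δ : F[X]) (u v : F[X][X]), h.Monic ∧ 0 < h.natDegree ∧ h.coeff 0 ≠ 0 ∧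
      δ ≠ 0 ∧ u * h + v * derivative h = C δ ∧ Irreducible (fK h) ∧
      (fK h).natDegree = Module.finrank (RatFunc F) E ∧ (fE E h).Splits := by
  let _ : Algebra F[X] E :=
    ((algebraMap (RatFunc F) E).comp (algebraMap F[X] (RatFunc F))).toAlgebra
  have : IsScalarTower F[X] (RatFunc F) E := IsScalarTower.of_algebraMap_eq (fun _ => rfl)
  obtain ⟨θ₀, hθ₀⟩ := Field.exists_primitive_element (RatFunc F) E
  obtain ⟨θ₁, hθ₁, hne⟩ : ∃ θ : E, (RatFunc F)⟮θ⟯ = ⊤ ∧ θ ≠ 0 := by
    by_cases h : θ₀ = 0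
    · refine ⟨1, ?_, one_ne_zero⟩
      rw [h, IntermediateField.adjoin_zero] at hθ₀
      rw [IntermediateField.adjoin_one]
      exact hθ₀
    · exact ⟨θ₀, hθ₀, h⟩
  obtain ⟨c, hc⟩ := IsIntegral.exists_multiple_integral_of_isLocalization
    (nonZeroDivisors F[X]) (Rₘ := RatFunc F) θ₁ (IsIntegral.of_finite (RatFunc F) θ₁)
  have hc0 : (c : F[X]) ≠ 0 := nonZeroDivisors.ne_zero c.2
  have hcE : rf (c : F[X]) ≠ 0 := RatFunc.algebraMap_ne_zero hc0
  set θ : E := c • θ₁ with hθdef
  have hθe : θ = algebraMap (RatFunc F) E (rf (c : F[X])) * θ₁ := by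
    rw [hθdef, Submonoid.smul_def, Algebra.smul_def]
    rfl
  have hcE' : algebraMap (RatFunc F) E (rf (c : F[X])) ≠ 0 := (_root_.map_ne_zero _).2 hcE
  have hθne : θ ≠ 0 := by
    rw [hθe]
    exact mul_ne_zero hcE' hne
  have hθtop : (RatFunc F)⟮θ⟯ = ⊤ := by
    rw [eq_top_iff, ← hθ₁, IntermediateField.adjoin_simple_le_iff]
    have h1 : θ₁ = algebraMap (RatFunc F) E (rf (c : F[X]))⁻¹ * θ := by
      rw [hθe, map_inv₀]
      field_simp
    rw [h1]
    exact mul_mem (IntermediateField.algebraMap_mem _ _)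
      (IntermediateField.mem_adjoin_simple_self _ _)
  have hmin : minpoly (RatFunc F) θ = fK (minpoly F[X] θ) :=
    minpoly.isIntegrallyClosed_eq_field_fractions' (RatFunc F) hc
  have hdeg : (fK (minpoly F[X] θ)).natDegree = Module.finrank (RatFunc F) E := by
    rw [← hmin]
    exact (Field.primitive_element_iff_minpoly_natDegree_eq (RatFunc F) θ).1 hθtop
  obtain ⟨a, b, hab⟩ : (minpoly (RatFunc F) θ).Separable :=
    Algebra.IsSeparable.isSeparable (RatFunc F) θ
  obtain ⟨c₁, hc₁, q₁, hq₁⟩ := clr a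
  obtain ⟨c₂, hc₂, q₂, hq₂⟩ := clr b
  refine ⟨minpoly F[X] θ, c₁ * c₂, C c₂ * q₁, C c₁ * q₂, minpoly.monic hc,
    minpoly.natDegree_pos hc, ?_, mul_ne_zero hc₁ hc₂, ?_, ?_, hdeg, ?_⟩
  · intro h0
    have h1 := minpoly.coeff_zero_ne_zero (IsIntegral.of_finite (RatFunc F) θ) hθne
    apply h1
    rw [hmin, fK, Polynomial.coeff_map, h0, map_zero]
  · apply fK_inj
    rw [hmin] at hab
    have hd : derivative (fK (minpoly F[X] θ)) = fK (derivative (minpoly F[X] θ)) :=
      Polynomial.derivative_map _ _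
    rw [hd] at hab
    change Polynomial.map _ _ = Polynomial.map _ _
    rw [Polynomial.map_add, Polynomial.map_mul, Polynomial.map_mul, Polynomial.map_mul,
      Polynomial.map_mul, Polynomial.map_C, Polynomial.map_C, Polynomial.map_C]
    change C (rf c₂) * fK q₁ * fK (minpoly F[X] θ) +
      C (rf c₁) * fK q₂ * fK (derivative (minpoly F[X] θ)) = C (rf (c₁ * c₂))
    have hr : (C (rf (c₁ * c₂)) : (RatFunc F)[X]) = C (rf c₁) * C (rf c₂) := by
      rw [← C_mul, ← map_mul]
    rw [hq₁, hq₂, hr]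
    linear_combination (C (rf c₁) * C (rf c₂)) * hab
  · rw [← hmin]
    exact minpoly.irreducible (IsIntegral.of_finite (RatFunc F) θ)
  · rw [fE, ← hmin]
    exact Normal.splits inferInstance θ

/-- Every element of `E` is a polynomial in a root of `h`. -/
theorem range_root {F : Type} [Field F] {E : Type} [Field E] [Algebra (RatFunc F) E]
    [FiniteDimensional (RatFunc F) E] {h : F[X][X]} (hm : h.Monic) (hi : Irreducible (fK h))
    (hd : (fK h).natDegree = Module.finrank (RatFunc F) E) {θ : E}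
    (hθ : (fE E h).eval θ = 0) (e : E) :
    ∃ g : (RatFunc F)[X], e = (g.map (algebraMap (RatFunc F) E)).eval θ := by
  have hmin : fK h = minpoly (RatFunc F) θ := by
    apply minpoly.eq_of_irreducible_of_monic hi
    · rw [Polynomial.aeval_def, ← Polynomial.eval_map]
      exact hθ
    · exact hm.map _
  have htop : IntermediateField.adjoin (RatFunc F) {θ} = ⊤ := by
    rw [Field.primitive_element_iff_minpoly_natDegree_eq, ← hmin, hd]
  have h1 : e ∈ IntermediateField.adjoin (RatFunc F) {θ} := by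
    rw [htop]
    exact IntermediateField.mem_top
  have h2 : e ∈ (IntermediateField.adjoin (RatFunc F) {θ}).toSubalgebra := h1
  rw [IntermediateField.adjoin_simple_toSubalgebra_of_isAlgebraic
    (Algebra.IsAlgebraic.isAlgebraic θ), Algebra.adjoin_singleton_eq_range_aeval] at h2
  obtain ⟨g, hg⟩ := h2
  refine ⟨g, ?_⟩
  rw [← hg]
  change Polynomial.aeval θ g = _
  rw [Polynomial.aeval_def, ← Polynomial.eval_map]

/-- Newton approximation. -/
theorem newton {A : Type} [CommRing A] (P : A) (h : A[X]) (a s : A)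
    (h1 : P ∣ h.eval a) (h2 : P ∣ 1 - s * (derivative h).eval a) :
    ∀ m : ℕ, ∃ α : A, P ∣ α - a ∧ P ^ (m + 1) ∣ h.eval α := by
  intro m
  induction m with
  | zero => exact ⟨a, by simp, by simpa using h1⟩
  | succ m ih =>
    obtain ⟨α, hα1, hα2⟩ := ih
    obtain ⟨k, hk⟩ := Polynomial.binomExpansion h α (-(s * h.eval α))
    have hPα : P ∣ h.eval α := (dvd_pow_self P (Nat.succ_ne_zero m)).trans hα2
    have h3 : P ∣ 1 - s * (derivative h).eval α := by
      have h4 := Polynomial.sub_dvd_eval_sub α a (derivative h)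
      have h5 : 1 - s * (derivative h).eval α = (1 - s * (derivative h).eval a) -
          s * ((derivative h).eval α - (derivative h).eval a) := by ring
      rw [h5]
      exact dvd_sub h2 (Dvd.dvd.mul_left (hα1.trans h4) _)
    refine ⟨α + -(s * h.eval α), ?_, ?_⟩
    · have : α + -(s * h.eval α) - a = (α - a) - s * h.eval α := by ring
      rw [this]
      exact dvd_sub hα1 (Dvd.dvd.mul_left hPα _)
    · rw [hk]
      have h6 : h.eval α + (derivative h).eval α * -(s * h.eval α) +
          k * (-(s * h.eval α)) ^ 2 = h.eval α * (1 - s * (derivative h).eval α) +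
          h.eval α * (h.eval α * (k * s ^ 2)) := by ring
      rw [h6, pow_succ]
      exact dvd_add (mul_dvd_mul hα2 h3) (mul_dvd_mul hα2 (Dvd.dvd.mul_right hPα _))

end Spl53

end Pool.TOW
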